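import Pool.Agent.Helper77.PPB.Goals
import Pool.Agent.Helper56.RL.ADM

/-!
Packet PPB-B_SPA (MP_fc6b1e_nt).
-/

namespace Pool.Agent.Helper56.PPB

open NumberField Polynomial Module IsDedekindDomain
open Pool.Agent.Helper51.SigLeo Pool.Agent.Helper51.RP Pool.Agent.Helper77.RL
open Pool.Agent.Helper42.RD (wt wt_p)
open Pool.Agent.Helper56.RL (wt_pres lt_one_of_above)

/-- The restriction to `J` is trivial if the primes of `J` above `p` are free over `K`. -/
theorem fix_sub (p : ℕ) [Fact p.Prime] (K J M' : Type) [Field K] [NumberField K] [Field J]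
    [NumberField J] [Field M'] [NumberField M'] [Algebra K J] [Algebra K M'] [Algebra J M']
    [IsScalarTower K J M'] [IsGalois K J]
    (h : ∀ v : HeightOneSpectrum (𝓞 K), (p : 𝓞 K) ∈ v.asIdeal →
      ∀ V : HeightOneSpectrum (𝓞 J), Above V v → FreeP K V)
    (τ' : M' →+* ℂ_[p]) (g : M' ≃ₐ[K] M') (hg : ∀ x, ‖τ' (g x)‖ = ‖τ' x‖) (x : J) :
    g (algebraMap J M' x) = algebraMap J M' x := by
  let s : J →+* ℂ_[p] := τ'.comp (algebraMap J M')
  have hcomm : ∀ y : J, algebraMap J M' (g.restrictNormal J y) = g (algebraMap J M' y) :=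
    fun y => g.restrictNormal_commutes J y
  have hs : ∀ y : J, ‖s (g.restrictNormal J y)‖ = ‖s y‖ := by
    intro y
    show ‖τ' (algebraMap J M' (g.restrictNormal J y))‖ = ‖τ' (algebraMap J M' y)‖
    rw [hcomm, hg]
  obtain ⟨v, hv⟩ := Pool.Agent.Helper95.RL.exists_below (M := K) (wt p s)
  have hp : (p : 𝓞 K) ∈ v.asIdeal := by
    have e : ((p : 𝓞 K) : K) = p := map_natCast (algebraMap (𝓞 K) K) p
    have h3 := lt_one_of_above hv (p : 𝓞 K) (by
      rw [e, map_natCast]
      exact wt_p p s)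
    exact (v.valuation_lt_one_iff_mem (K := K) (p : 𝓞 K)).1 h3
  have h1 : g.restrictNormal J = 1 :=
    h v hp (wt p s) hv _ (fun y => wt_pres p s (g.restrictNormal J) hs y)
  rw [← hcomm, h1]
  rfl

theorem b_spa : Pool.Agent.Helper77.PPB.B_SPA := by
  intro p hp K M J E M' _ _ _ _ _ _ _ _ _ _ _ _ _ _ _ _ _ _ _ _ _ hgen hJ hE τ' g' hg'
  let g : M' ≃ₐ[K] M' := g'.restrictScalars K
  have hg : ∀ x, ‖τ' (g x)‖ = ‖τ' x‖ := hg'
  have h1 : g = 1 := by
    refine hgen g ?_ ?_ ?_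
    · intro x
      exact g'.commutes x
    · intro x
      exact fix_sub p K J M' hJ τ' g hg x
    · intro x
      exact fix_sub p K E M' hE τ' g hg x
  ext x
  exact AlgEquiv.congr_fun h1 x

end Pool.Agent.Helper56.PPB
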