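import Pool.Agent.Helper77.PPB.Goals2
import Pool.Agent.Helper74.PP.DCNV

/-!
Packet PPB-B_KU4 (MP_fc6b1e_nt).
-/

namespace Pool.Agent.Helper56.PPB

open NumberField Polynomial Module IsDedekindDomain
open Pool.Agent.Helper51.SigLeo Pool.Agent.Helper51.RP

theorem b_ku4 : Pool.Agent.Helper77.PPB.B_KU4 := by
  intro p hp K _ _ M₂ F₀ _ _ _ hcomm ε hε a₀ s₀ hs₀ hs τ
  have hp0 : p ≠ 0 := hp.out.ne_zero
  -- the exponent
  have h1 : (τ ε) ^ p = 1 := by rw [← map_pow, hε.pow_eq_one, map_one]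
  obtain ⟨n, -, hn⟩ := hε.eq_pow_of_pow_eq_one h1
  -- the extension
  let τ' : AlgebraicClosure K ≃ₐ[K] AlgebraicClosure K :=
    AlgEquiv.liftNormal τ (AlgebraicClosure K)
  have hτ' : ∀ x : M₂, τ' (x : AlgebraicClosure K) = ((τ x : M₂) : AlgebraicClosure K) :=
    fun x => AlgEquiv.liftNormal_commutes τ (AlgebraicClosure K) x
  have ha0 : ((a₀ : M₂) : AlgebraicClosure K) ≠ 0 := by
    intro h
    exact a₀.ne_zero (Subtype.ext h)
  have hs0 : s₀ ≠ 0 := by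
    rintro rfl
    rw [zero_pow hp0] at hs
    exact ha0 hs.symm
  have hεΩ : IsPrimitiveRoot ((ε : M₂) : AlgebraicClosure K) p :=
    hε.map_of_injective (f := algebraMap M₂ (AlgebraicClosure K))
      (algebraMap M₂ (AlgebraicClosure K)).injective
  obtain ⟨c, hc⟩ := Pool.Agent.Helper74.PP.mem_range_of_fixed (K₁ := M₂) M₂.val
    (τ' s₀ / s₀ ^ n) (by
      intro g hg
      have hg' : ∀ x : M₂, g (x : AlgebraicClosure K) = x := hg
      have h2 : (g s₀ / s₀) ^ p = 1 := by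
        rw [div_pow, ← map_pow, hs, hg', div_self ha0]
      obtain ⟨i, -, hi⟩ := hεΩ.eq_pow_of_pow_eq_one h2
      have h3 : g s₀ = (ε : AlgebraicClosure K) ^ i * s₀ := by
        rw [hi, div_mul_cancel₀ _ hs0]
      have h4 : g (τ' s₀) = ((ε : AlgebraicClosure K) ^ n) ^ i * τ' s₀ := by
        rw [hcomm g τ' s₀ hs₀, h3, map_mul, map_pow, hτ', ← hn]
        rfl
      rw [map_div₀, map_pow, h4, h3, mul_pow, ← pow_mul, ← pow_mul, mul_comm n i]
      have hε0 : ((ε : M₂) : AlgebraicClosure K) ^ (i * n) ≠ 0 :=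
        pow_ne_zero _ (hεΩ.ne_zero hp0)
      rw [mul_div_mul_left _ _ hε0])
  refine ⟨n, c, hn.symm, ?_⟩
  have hc' : (c : AlgebraicClosure K) = τ' s₀ / s₀ ^ n := hc
  apply Subtype.ext
  have h5 : τ' s₀ = (c : AlgebraicClosure K) * s₀ ^ n := by
    rw [hc', div_mul_cancel₀ _ (pow_ne_zero _ hs0)]
  have h6 : ((τ (a₀ : M₂) : M₂) : AlgebraicClosure K) =
      ((a₀ : M₂) : AlgebraicClosure K) ^ n * (c : AlgebraicClosure K) ^ p := by
    rw [← hτ', ← hs, map_pow, h5, mul_pow, ← pow_mul, ← pow_mul, mul_comm n p, mul_comm]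
  rw [h6]
  rfl

end Pool.Agent.Helper56.PPB
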